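import Pool.Agent.Lib.MP_45cb44_an.HyMain

/-! Operators whose self-commutator is bounded on one side by a trace class operator have a
non-trivial closed invariant subspace unless the self-commutators of the operator and of its
resolvents all have trace zero. -/

namespace Pool.Agent.Results.MP_45cb44_an.NonzeroTrace

theorem result {H : Type*} [NormedAddCommGroup H] [InnerProductSpace ℂ H] [CompleteSpace H]
    (b : HilbertBasis ℕ ℂ H) (T K S : H →L[ℂ] H) (hK : K.IsPositive)
    (hs : Summable fun i => inner ℂ (b i) (K (b i)))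
    (hD : (K + (star T * T - T * star T)).IsPositive ∨ (K - (star T * T - T * star T)).IsPositive)
    (hS : S = T ∨ ∃ z : ℂ, ‖T‖ < ‖z‖ ∧ S = resolvent T z)
    (h : ¬HasSum (fun i => inner ℂ (b i) ((star S * S - S * star S) (b i))) 0) :
    ∃ M : Submodule ℂ H, IsClosed (M : Set H) ∧ (∀ x ∈ M, T x ∈ M) ∧ M ≠ ⊥ ∧ M ≠ ⊤ :=
  Pool.Agent.Lib.MP_45cb44_an.Hy.invariant_of_not_tr
    (Pool.Agent.Lib.MP_45cb44_an.Hy.not_tr_one_sided b hK hs hD hS h)

end Pool.Agent.Results.MP_45cb44_an.NonzeroTrace
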