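import Pool.Agent.Lib.MP_45cb44_an.TC.Fin

/-! Every non-scalar trace class perturbation of a normal operator has a non-trivial closed
hyperinvariant subspace. -/

namespace Pool.Agent.Results.MP_45cb44_an.NormalPlusTraceClass

theorem result {H : Type*} [NormedAddCommGroup H] [InnerProductSpace ℂ H] [CompleteSpace H]
    (N K : H →L[ℂ] H)
    (hN : (ContinuousLinearMap.adjoint N).comp N = N.comp (ContinuousLinearMap.adjoint N))
    (u v : ℕ → H) (huv : Summable fun n => ‖u n‖ * ‖v n‖)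
    (hK : ∀ x, HasSum (fun n => inner ℂ (v n) x • u n) (K x))
    (hT : ∀ a : ℂ, N + K ≠ a • ContinuousLinearMap.id ℂ H) :
    ∃ M : Submodule ℂ H, IsClosed (M : Set H) ∧ M ≠ ⊥ ∧ M ≠ ⊤ ∧
      ∀ S : H →L[ℂ] H, S.comp (N + K) = (N + K).comp S → ∀ x ∈ M, S x ∈ M :=
  Pool.Agent.Lib.MP_45cb44_an.TC.exists_hyperinvariant hN u v huv hK hT

end Pool.Agent.Results.MP_45cb44_an.NormalPlusTraceClass
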