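import Pool.Agent.Lib.MP_45cb44_an.SP.Main

/-! Every trace class perturbation of a hyponormal or cohyponormal operator has a non-trivial
closed invariant subspace. -/

namespace Pool.Agent.Results.MP_45cb44_an.SeminormalPlusTraceClass

theorem result {H : Type*} [NormedAddCommGroup H] [InnerProductSpace ℂ H] [CompleteSpace H]
    (hH : ¬FiniteDimensional ℂ H) (S K : H →L[ℂ] H)
    (hS : (∀ x, ‖ContinuousLinearMap.adjoint S x‖ ≤ ‖S x‖) ∨
      ∀ x, ‖S x‖ ≤ ‖ContinuousLinearMap.adjoint S x‖)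
    (u v : ℕ → H) (huv : Summable fun n => ‖u n‖ * ‖v n‖)
    (hK : ∀ x, HasSum (fun n => inner ℂ (v n) x • u n) (K x)) :
    ∃ M : Submodule ℂ H, IsClosed (M : Set H) ∧ (∀ x ∈ M, (S + K) x ∈ M) ∧ M ≠ ⊥ ∧ M ≠ ⊤ :=
  Pool.Agent.Lib.MP_45cb44_an.Hy.invariant_of_not_tr
    (Pool.Agent.Lib.MP_45cb44_an.SP.not_tr hH hS u v huv hK)

end Pool.Agent.Results.MP_45cb44_an.SeminormalPlusTraceClass
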